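import Pool.Agent.Helper79.CF.Spec2

/-!
# IRR: the law forces irrationality
-/

set_option autoImplicit false
set_option linter.all false

namespace Pool.Agent.Helper47.CF.IRR

open Finset Filter Topology MeasureTheory Pool.Agent.Helper79.CF

theorem not_prime_four (m : ℕ) : ¬ (4 * m).Prime := by
  intro h
  have h2 : (2 : ℕ) ∣ 4 * m := ⟨2 * m, by ring⟩
  rcases (Nat.dvd_prime h).1 h2 with h3 | h3
  · omega
  · rw [← h3] at h
    omega

theorem count_zero (S : Set ℕ) (N : ℕ) (h : ∀ n, n ∉ S) : count S N = 0 := by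
  unfold count
  have h1 : ∀ (inst : DecidablePred fun n => n ∈ S),
      (@Finset.filter ℕ (fun n => n ∈ S) inst (Icc 1 N)) = ∅ := by
    intro inst
    exact (@Finset.filter_eq_empty_iff ℕ (fun n => n ∈ S) inst (Icc 1 N)).2 fun n _ => h n
  exact Nat.cast_eq_zero.2 (Finset.card_eq_zero.2 (h1 _))

theorem main : S_IRR := by
  intro t ht h
  rw [irrational_iff_ne_rational]
  intro a b hb0 hab
  -- t = a / b
  obtain ⟨q, hq⟩ : ∃ q : ℚ, (q : ℝ) = 1 + t := ⟨1 + (a : ℚ) / b, by rw [hab]; push_cast; ring⟩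
  have hq0 : 0 < q := by
    have : (0 : ℝ) < (q : ℝ) := by rw [hq]; linarith
    exact_mod_cast this
  obtain ⟨A, hA⟩ : ∃ A : ℕ, (A : ℤ) = q.num := ⟨q.num.toNat, Int.toNat_of_nonneg (Rat.num_pos.2 hq0).le⟩
  set B : ℕ := q.den with hB
  have hBpos : 0 < B := q.den_pos
  have hqe : (1 + t) * (B : ℝ) = A := by
    rw [← hq]
    have h1 : (q : ℝ) = (q.num : ℝ) / (q.den : ℝ) := by
      exact_mod_cast (Rat.num_div_den q).symm
    rw [h1, ← hA]
    have : (q.den : ℝ) ≠ 0 := by exact_mod_cast q.den_ne_zero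
    rw [hB]
    push_cast
    field_simp
  set f : Polynomial ℤ := Polynomial.C (4 * (B : ℤ)) * Polynomial.X with hf
  have hc0 : (4 * (B : ℤ)) ≠ 0 := by positivity
  have hdeg : f.natDegree = 1 := Polynomial.natDegree_C_mul_X _ hc0
  have hlead : 0 < f.leadingCoeff := by
    have h1 : f.leadingCoeff = 4 * (B : ℤ) := by
      rw [hf, Polynomial.leadingCoeff_mul, Polynomial.leadingCoeff_C, Polynomial.leadingCoeff_X,
        mul_one]
    rw [h1]; positivity
  have hL := h f (by rw [hdeg]) hlead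
  unfold Law at hL
  rw [hdeg] at hL
  have hz : ∀ N : ℕ, count {n | n ∈ (Set.univ : Set ℕ) ∧
      (⌊(1 + t) * ((f.eval (n : ℤ) : ℤ) : ℝ)⌋₊).Prime} N = 0 := by
    intro N
    refine count_zero _ N fun n hn => ?_
    obtain ⟨-, h2⟩ := hn
    have h3 : (1 + t) * ((f.eval (n : ℤ) : ℤ) : ℝ) = ((4 * (A * n) : ℕ) : ℝ) := by
      rw [hf]
      simp only [Polynomial.eval_mul, Polynomial.eval_C, Polynomial.eval_X]
      push_cast
      linear_combination (4 * (n : ℝ)) * hqe
    rw [h3, Nat.floor_natCast] at h2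
    exact not_prime_four _ h2
  have h1 : Tendsto (fun N : ℕ => (0 : ℝ)) atTop (𝓝 (1 / ((1 : ℕ) : ℝ))) := by
    refine hL.congr fun N => ?_
    rw [hz, zero_mul, zero_div]
  have h2 := tendsto_nhds_unique h1 tendsto_const_nhds
  norm_num at h2

end Pool.Agent.Helper47.CF.IRR
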